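import Pool.Agent.Helper48.KM.Stmts

set_option autoImplicit false

/-! A nonzero polynomial vanishes on curves with finitely many limits only. -/

namespace Pool.Agent.Helper48.KM

open MvPolynomial

/-- the weight of a monomial -/
def den_wt (w : ℕ) (m : Fin 2 →₀ ℕ) : ℕ := m 0 + w * m 1

theorem den_eval (N : MvPolynomial (Fin 2) ℂ) (z x : ℂ) :
    eval ![z, x] N = ∑ m ∈ N.support, coeff m N * (z ^ m 0 * x ^ m 1) := by
  rw [MvPolynomial.eval_eq']
  apply Finset.sum_congr rfl
  intro m _
  rw [Fin.prod_univ_two]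
  rfl

theorem st_DEN : ST_DEN := by
  classical
  intro w N _ hN
  obtain ⟨m0, hm0, hmax⟩ := Finset.exists_max_image N.support (den_wt w)
    (MvPolynomial.support_nonempty.2 hN)
  obtain ⟨W, hW⟩ : ∃ W, W = den_wt w m0 := ⟨_, rfl⟩
  obtain ⟨h, hh⟩ : ∃ h : Polynomial ℂ, h = ∑ m ∈ N.support.filter (fun m => den_wt w m = W),
    Polynomial.monomial (m 1) (coeff m N) := ⟨_, rfl⟩
  have hne : h ≠ 0 := by
    intro h0
    have h1 : h.coeff (m0 1) = coeff m0 N := by
      rw [hh, Polynomial.finsetSum_coeff, Finset.sum_eq_single m0]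
      · rw [Polynomial.coeff_monomial, if_pos rfl]
      · intro m hm hmm
        rw [Polynomial.coeff_monomial, if_neg]
        intro h2
        apply hmm
        obtain ⟨-, h3⟩ := Finset.mem_filter.1 hm
        rw [hW] at h3
        unfold den_wt at h3
        rw [h2] at h3
        ext i
        fin_cases i
        · exact Nat.add_right_cancel h3
        · exact h2
      · intro h2
        exact absurd (Finset.mem_filter.2 ⟨hm0, hW.symm⟩) h2
    rw [h0, Polynomial.coeff_zero] at h1
    exact (MvPolynomial.mem_support_iff.1 hm0) h1.symm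
  refine (h.rootSet_finite ℂ).subset ?_
  rintro ξ ⟨f, ⟨j, p, q, hj, hp, hq, hs⟩, hf⟩
  rw [Polynomial.mem_rootSet]
  refine ⟨hne, ?_⟩
  obtain ⟨T, hT⟩ : ∃ T : Polynomial ℂ, T = ∑ m ∈ N.support, Polynomial.C (coeff m N) *
    (p ^ m 0 * q ^ m 1 * Polynomial.X ^ (j * (W - den_wt w m))) := ⟨_, rfl⟩
  have hT0 : ∀ s : ℂ, s ≠ 0 → T.eval s = 0 := by
    intro s hs0
    obtain ⟨u, rfl⟩ : ∃ u : ℂˣ, (u : ℂ) = s := ⟨Units.mk0 s hs0, rfl⟩
    obtain ⟨s1, s2⟩ := hs u
    have h1 := hf u
    rw [den_eval] at h1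
    have h2 : T.eval (u : ℂ) = (u : ℂ) ^ (j * W) * ∑ m ∈ N.support, coeff m N *
        (val f u 0 ^ m 0 * val f u 1 ^ m 1) := by
      rw [hT, Polynomial.eval_finsetSum, Finset.mul_sum]
      apply Finset.sum_congr rfl
      intro m hm
      rw [Polynomial.eval_mul, Polynomial.eval_C, Polynomial.eval_mul, Polynomial.eval_mul,
        Polynomial.eval_pow, Polynomial.eval_pow, Polynomial.eval_pow, Polynomial.eval_X, ← s1,
        ← s2, mul_pow, mul_pow, ← pow_mul, ← pow_mul]
      have h3 : j * W = j * m 0 + w * j * m 1 + j * (W - den_wt w m) := by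
        have h4 : den_wt w m ≤ W := by
          rw [hW]
          exact hmax m hm
        obtain ⟨d, hd⟩ := Nat.exists_eq_add_of_le h4
        rw [hd, Nat.add_sub_cancel_left]
        unfold den_wt
        ring
      rw [h3, pow_add, pow_add]
      ring
    rw [h2, h1, mul_zero]
  have hTz : T = 0 := by
    apply Polynomial.eq_zero_of_infinite_isRoot
    refine Set.Infinite.mono (s := {s : ℂ | s ≠ 0}) (fun s hs0 => hT0 s hs0) ?_
    exact (Set.finite_singleton (0 : ℂ)).infinite_compl
  have h5 : T.eval 0 = 0 := by rw [hTz, Polynomial.eval_zero]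
  have h6 : T.eval 0 = p.eval 0 ^ W * h.eval ξ := by
    rw [hT, hh, Polynomial.eval_finsetSum, Polynomial.eval_finsetSum, Finset.mul_sum,
      Finset.sum_filter]
    apply Finset.sum_congr rfl
    intro m hm
    rw [Polynomial.eval_mul, Polynomial.eval_C, Polynomial.eval_mul, Polynomial.eval_mul,
      Polynomial.eval_pow, Polynomial.eval_pow, Polynomial.eval_pow, Polynomial.eval_X]
    by_cases h7 : den_wt w m = W
    · rw [if_pos h7, h7, Nat.sub_self, mul_zero, pow_zero, mul_one, hq, Polynomial.eval_monomial,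
        ← h7]
      unfold den_wt
      rw [mul_pow, pow_add, pow_mul]
      ring
    · rw [if_neg h7, zero_pow, mul_zero, mul_zero]
      have h4 : den_wt w m ≤ W := by
        rw [hW]
        exact hmax m hm
      have : 0 < W - den_wt w m := by omega
      positivity
  rw [h5] at h6
  rcases mul_eq_zero.1 h6.symm with h7 | h7
  · exact absurd h7 (pow_ne_zero _ hp)
  · rw [Polynomial.coe_aeval_eq_eval]
    exact h7

end Pool.Agent.Helper48.KM
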